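import Pool.Agent.K4H23.NZ.Spec

set_option autoImplicit false

open Finset Pointwise

namespace Pool.Agent.K4H23.NZ

theorem V_eq' {e : ℕ} (he : 1 ≤ e) {M n : ℝ} (hn : 0 ≤ n) {k : ℕ} (hk : 1 ≤ k) :
    V e M k n = (n ^ (1 / (e : ℝ)) * (1 + 1 / (k:ℝ)) ^ (1 / (e:ℝ)) + M * ((k:ℝ) + 1) ^ (1 / (e:ℝ))) ^ e := by
  have hk0 : (0:ℝ) < k := by exact_mod_cast hk
  have he0 : (e:ℝ) ≠ 0 := by positivity
  have h1 : (((k:ℝ) + 1) ^ (1 / (e:ℝ))) ^ e = ((k:ℝ) + 1) := by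
    rw [← Real.rpow_natCast, ← Real.rpow_mul (by positivity), one_div_mul_cancel he0, Real.rpow_one]
  have h2 : n ^ (1 / (e : ℝ)) * (1 + 1 / (k:ℝ)) ^ (1 / (e:ℝ)) = (n / k) ^ (1 / (e:ℝ)) * ((k:ℝ)+1) ^ (1 / (e:ℝ)) := by
    rw [← Real.mul_rpow hn (by positivity), ← Real.mul_rpow (by positivity) (by positivity)]
    congr 1
    field_simp
  unfold V g
  rw [h2, ← add_mul, mul_pow, h1]
  ring

theorem d3_of
    (d2a : ∀ {e : ℕ} (_ : 1 ≤ e) {M n : ℝ} (_ : 0 < M) {k m : ℕ} (_ : 1 ≤ k) (_ : k < m)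
      (_ : M ^ e * (m : ℝ) ^ (e + 1) ≤ n), V e M m n < V e M k n)
    (d2b : ∀ {e : ℕ} (_ : 1 ≤ e) {M n : ℝ} (_ : 0 < M) {k m : ℕ} (_ : 1 ≤ k) (_ : k < m)
      (_ : 0 < n) (_ : n ≤ M ^ e * (k : ℝ) ^ (e + 1)), V e M k n < V e M m n)
    {e M p : ℕ} (he : 1 ≤ e) (hM : 4 * e < M) (hp : 1 ≤ p) : ∃ r₁ r₂ : ℕ,
    r₂ < r₁ ∧ 1 ≤ r₂ ∧ p * r₁ ^ e < (p + 1) * r₂ ^ e ∧ M * p ≤ r₁ ∧ r₂ ≤ M * (p + 1) ∧
      V e M p ((p * r₁ ^ e : ℕ) : ℝ) < V e M (p + 1) ((p * r₁ ^ e : ℕ) : ℝ) ∧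
      V e M (p + 1) (((p + 1) * r₂ ^ e : ℕ) : ℝ) < V e M p (((p + 1) * r₂ ^ e : ℕ) : ℝ) := by
  have he0 : (0:ℝ) < e := by exact_mod_cast he
  have he1 : (1:ℝ) ≤ e := by exact_mod_cast he
  have hp0 : (0:ℝ) < p := by exact_mod_cast hp
  have hp1 : (1:ℝ) ≤ p := by exact_mod_cast hp
  have hM4 : (4:ℝ) * e < M := by exact_mod_cast hM
  have hM0 : (0:ℝ) < M := by linarith
  obtain ⟨a, ha⟩ : ∃ a : ℝ, a = 1 / (e:ℝ) := ⟨_, rfl⟩
  have ha0 : 0 < a := by rw [ha]; positivity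
  have ha1 : a ≤ 1 := by rw [ha, div_le_one he0]; exact he1
  have hae : a * e = 1 := by rw [ha]; field_simp
  -- the constants
  obtain ⟨A, hA⟩ : ∃ A : ℝ, A = (1 + 1 / (p:ℝ)) ^ a - (1 + 1 / ((p + 1 : ℕ):ℝ)) ^ a := ⟨_, rfl⟩
  obtain ⟨B, hB⟩ : ∃ B : ℝ, B = (((p + 1 : ℕ):ℝ) + 1) ^ a - ((p:ℝ) + 1) ^ a := ⟨_, rfl⟩
  have hA0 : 0 < A := by
    rw [hA, sub_pos]
    apply Real.rpow_lt_rpow (by positivity) _ ha0
    have : 1 / ((p + 1 : ℕ):ℝ) < 1 / (p:ℝ) := by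
      apply one_div_lt_one_div_of_lt hp0
      push_cast; linarith
    linarith
  obtain ⟨T, hT⟩ : ∃ T : ℝ, T = M * B / A := ⟨_, rfl⟩
  have hTA : T * A = M * B := by rw [hT]; field_simp
  have key1 : ∀ n : ℝ, 0 ≤ n → (V e M p n < V e M (p + 1) n ↔ n ^ a < T) := by
    intro n hn
    have hna : 0 ≤ n ^ a := Real.rpow_nonneg hn a
    rw [V_eq' he hn hp, V_eq' he hn (by omega : 1 ≤ p + 1), ← ha,
      pow_lt_pow_iff_left₀ (by positivity) (by positivity) (by omega)]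
    constructor
    · intro h
      have : n ^ a * A < T * A := by rw [hTA, hA, hB]; nlinarith
      exact lt_of_mul_lt_mul_right this hA0.le
    · intro h
      have : n ^ a * A < T * A := mul_lt_mul_of_pos_right h hA0
      rw [hTA, hA, hB] at this
      nlinarith
  have key2 : ∀ n : ℝ, 0 ≤ n → (V e M (p + 1) n < V e M p n ↔ T < n ^ a) := by
    intro n hn
    have hna : 0 ≤ n ^ a := Real.rpow_nonneg hn a
    rw [V_eq' he hn hp, V_eq' he hn (by omega : 1 ≤ p + 1), ← ha,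
      pow_lt_pow_iff_left₀ (by positivity) (by positivity) (by omega)]
    constructor
    · intro h
      have : T * A < n ^ a * A := by rw [hTA, hA, hB]; nlinarith
      exact lt_of_mul_lt_mul_right this hA0.le
    · intro h
      have : T * A < n ^ a * A := mul_lt_mul_of_pos_right h hA0
      rw [hTA, hA, hB] at this
      nlinarith
  -- powers
  have hpow : ∀ x : ℝ, 0 ≤ x → (x ^ e) ^ a = x := by
    intro x hx
    rw [← Real.rpow_natCast, ← Real.rpow_mul hx, mul_comm, hae, Real.rpow_one]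
  have hnat : ∀ (q : ℕ) (r : ℕ), ((q * r ^ e : ℕ) : ℝ) ^ a = (q:ℝ) ^ a * r := by
    intro q r
    push_cast
    rw [Real.mul_rpow (by positivity) (by positivity), hpow _ (by positivity)]
  have hMq : ∀ q : ℕ, ((M:ℝ) ^ e * (q:ℝ) ^ (e + 1)) ^ a = (q:ℝ) ^ a * (M * q) := by
    intro q
    have : (M:ℝ) ^ e * (q:ℝ) ^ (e + 1) = q * ((M:ℝ) * q) ^ e := by rw [mul_pow]; ring
    rw [this, Real.mul_rpow (by positivity) (by positivity), hpow _ (by positivity)]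
  have hT1 : (p:ℝ) ^ a * (M * p) < T := by
    have := d2b (e := e) he (M := M) (n := (M:ℝ) ^ e * (p:ℝ) ^ (e + 1)) hM0 hp (Nat.lt_succ_self p)
      (by positivity) le_rfl
    have h := (key1 _ (by positivity)).1 this
    rwa [hMq] at h
  have hT2 : T < ((p + 1 : ℕ):ℝ) ^ a * (M * (p + 1 : ℕ)) := by
    have := d2a (e := e) he (M := M) (n := (M:ℝ) ^ e * ((p + 1 : ℕ):ℝ) ^ (e + 1)) hM0 hp (Nat.lt_succ_self p)
      le_rfl
    have h := (key2 _ (by positivity)).1 this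
    rwa [hMq] at h
  have hpa : 0 < (p:ℝ) ^ a := Real.rpow_pos_of_pos hp0 a
  have hqa : 0 < ((p + 1 : ℕ):ℝ) ^ a := Real.rpow_pos_of_pos (by positivity) a
  obtain ⟨x, hx⟩ : ∃ x : ℝ, x = T / (p:ℝ) ^ a := ⟨_, rfl⟩
  obtain ⟨y, hy⟩ : ∃ y : ℝ, y = T / ((p + 1 : ℕ):ℝ) ^ a := ⟨_, rfl⟩
  have hxT : (p:ℝ) ^ a * x = T := by rw [hx]; field_simp
  have hyT : ((p + 1 : ℕ):ℝ) ^ a * y = T := by rw [hy]; field_simp
  have hx1 : (M:ℝ) * p < x := by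
    rw [← hxT] at hT1
    exact lt_of_mul_lt_mul_left hT1 hpa.le
  have hy1 : y < (M:ℝ) * (p + 1 : ℕ) := by
    rw [← hyT] at hT2
    exact lt_of_mul_lt_mul_left hT2 hqa.le
  have hTpos : 0 < T := lt_trans (by positivity) hT1
  have hy0 : 0 < y := by rw [hy]; positivity
  have hx0 : 0 < x := by rw [hx]; positivity
  -- the gap
  have hgap : y + 2 < x := by
    have hbern : (1 + (-(1 / ((p:ℝ) + 1)))) ^ a ≤ 1 + a * (-(1 / ((p:ℝ) + 1))) := by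
      apply _root_.rpow_one_add_le_one_add_mul_self _ ha0.le ha1
      have : 1 / ((p:ℝ) + 1) ≤ 1 := by rw [div_le_one (by positivity)]; linarith
      linarith
    have hyx : y = x * (1 + (-(1 / ((p:ℝ) + 1)))) ^ a := by
      have h3 : (1 + (-(1 / ((p:ℝ) + 1)))) = p / ((p + 1 : ℕ):ℝ) := by
        push_cast; field_simp; ring
      rw [h3, Real.div_rpow hp0.le (by positivity), hx, hy]
      field_simp
    have h4 : y ≤ x * (1 + a * (-(1 / ((p:ℝ) + 1)))) := by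
      rw [hyx]; exact mul_le_mul_of_nonneg_left hbern hx0.le
    have h5 : 2 < x * (a * (1 / ((p:ℝ) + 1))) := by
      have h6 : (M:ℝ) * p * (a * (1 / ((p:ℝ) + 1))) < x * (a * (1 / ((p:ℝ) + 1))) :=
        mul_lt_mul_of_pos_right hx1 (by positivity)
      refine lt_of_le_of_lt ?_ h6
      rw [ha]
      rw [show (M:ℝ) * p * (1 / (e:ℝ) * (1 / ((p:ℝ) + 1))) = (M * p) / (e * (p + 1)) by field_simp]
      rw [le_div_iff₀ (by positivity)]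
      nlinarith
    nlinarith
  refine ⟨⌈x⌉₊ - 1, ⌊y⌋₊ + 1, ?_, by omega, ?_, ?_, ?_, ?_, ?_⟩
  · have h1 : x ≤ ⌈x⌉₊ := Nat.le_ceil x
    have h2 : (⌊y⌋₊ : ℝ) ≤ y := Nat.floor_le hy0.le
    have h3 : (⌊y⌋₊ : ℝ) + 2 < ⌈x⌉₊ := by linarith
    have h4 : ⌊y⌋₊ + 2 < ⌈x⌉₊ := by exact_mod_cast h3
    omega
  all_goals
    have hc1 : (((⌈x⌉₊ - 1 : ℕ)) : ℝ) < x := by
      have h1 : 0 < ⌈x⌉₊ := Nat.ceil_pos.2 hx0
      have h2 : ((⌈x⌉₊ - 1 : ℕ) : ℝ) + 1 = ⌈x⌉₊ := by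
        have : ⌈x⌉₊ - 1 + 1 = ⌈x⌉₊ := by omega
        exact_mod_cast this
      have h3 : (⌈x⌉₊ : ℝ) < x + 1 := Nat.ceil_lt_add_one hx0.le
      linarith
    have hf1 : y < ((⌊y⌋₊ + 1 : ℕ) : ℝ) := by
      push_cast; exact Nat.lt_floor_add_one y
    have hk1 : ((p * (⌈x⌉₊ - 1) ^ e : ℕ) : ℝ) ^ a < T := by
      rw [hnat, ← hxT]; exact mul_lt_mul_of_pos_left hc1 hpa
    have hk2 : T < (((p + 1) * (⌊y⌋₊ + 1) ^ e : ℕ) : ℝ) ^ a := by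
      rw [hnat, ← hyT]; exact mul_lt_mul_of_pos_left hf1 hqa
  · have h1 := lt_trans hk1 hk2
    have h2 : ((p * (⌈x⌉₊ - 1) ^ e : ℕ) : ℝ) < (((p + 1) * (⌊y⌋₊ + 1) ^ e : ℕ) : ℝ) :=
      lt_of_not_ge fun hle => absurd h1 (not_lt.2 (Real.rpow_le_rpow (by positivity) hle ha0.le))
    exact_mod_cast h2
  · have h1 : ((M * p : ℕ) : ℝ) < x := by push_cast; exact hx1
    have h2 : M * p < ⌈x⌉₊ := Nat.lt_ceil.2 h1
    omega
  · have h1 : y < ((M * (p + 1) : ℕ) : ℝ) := by push_cast; push_cast at hy1; exact hy1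
    have h2 : ⌊y⌋₊ < M * (p + 1) := (Nat.floor_lt hy0.le).2 h1
    omega
  · exact (key1 _ (by positivity)).2 hk1
  · exact (key2 _ (by positivity)).2 hk2

end Pool.Agent.K4H23.NZ
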