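import Pool.Agent.K4H59.TL.Spec

open Set

namespace Pool.Agent.K4H59.TL

open Pool.Agent.K4H72.Til (IsPolygon ShareEdge IsTiling Tile Derivable Adj HasLocEig)

theorem exists_rep : ∃ (rep : Set ℂ → Set ℂ) (t : Set ℂ → ℂ), (∀ K, K = sh (t K) (rep K)) ∧
    ∀ K s, rep (sh s K) = rep K := by
  classical
  have shsh : ∀ (s t : ℂ) (K : Set ℂ), sh s (sh t K) = sh (s + t) K := by
    intro s t K
    unfold sh
    rw [image_image]
    congr 1
    funext z
    ring
  have sh0 : ∀ K : Set ℂ, sh 0 K = K := by intro K; simp [sh]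
  let S : Setoid (Set ℂ) :=
    { r := fun K L => ∃ s, K = sh s L
      iseqv := ⟨fun K => ⟨0, (sh0 K).symm⟩,
        fun {K L} ⟨s, h⟩ => ⟨-s, by rw [h, shsh]; simp [sh0]⟩,
        fun {K L M} ⟨s, h⟩ ⟨s', h'⟩ => ⟨s + s', by rw [h, h', shsh]⟩⟩ }
  have hrep : ∀ K : Set ℂ, ∃ s, K = sh s (Quotient.out (Quotient.mk S K)) := by
    intro K
    exact S.symm (Quotient.mk_out (s := S) K)
  choose t ht using hrep
  refine ⟨fun K => Quotient.out (Quotient.mk S K), t, ht, ?_⟩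
  intro K s
  have h : Quotient.mk S (sh s K) = Quotient.mk S K := Quotient.sound ⟨s, rfl⟩
  simp only [h]

end Pool.Agent.K4H59.TL
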