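import Pool.Agent.K4H23.NZ.Spec

set_option autoImplicit false

open Finset Pointwise

namespace Pool.Agent.K4H23.NZ

theorem c1 {e : ℕ} (he : 1 ≤ e) {M : ℝ} (hM : 0 ≤ M) : ConcaveOn ℝ (Set.Ici 0) (g e M) := by
  have he0 : (0:ℝ) < e := by exact_mod_cast he
  have hterm : ∀ j ∈ range (e + 1), ConcaveOn ℝ (Set.Ici 0)
      (fun v : ℝ => (M ^ (e - j) * (e.choose j : ℝ)) * v ^ ((j:ℝ) / e)) := by
    intro j hj
    have hj' : (j:ℝ) ≤ e := by exact_mod_cast Nat.lt_succ_iff.1 (mem_range.1 hj)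
    have h := Real.concaveOn_rpow (p := (j:ℝ) / e) (by positivity) (by rw [div_le_one he0]; exact hj')
    exact h.smul (by positivity : 0 ≤ M ^ (e - j) * (e.choose j : ℝ))
  have hsum : ConcaveOn ℝ (Set.Ici (0:ℝ))
      (fun v : ℝ => ∑ j ∈ range (e + 1), (M ^ (e - j) * (e.choose j : ℝ)) * v ^ ((j:ℝ) / e)) := by
    have : ∀ s : Finset ℕ, s ⊆ range (e + 1) → ConcaveOn ℝ (Set.Ici (0:ℝ))
        (fun v : ℝ => ∑ j ∈ s, (M ^ (e - j) * (e.choose j : ℝ)) * v ^ ((j:ℝ) / e)) := by
      intro s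
      induction s using Finset.induction_on with
      | empty => intro _; simpa using concaveOn_const (0:ℝ) (convex_Ici (0:ℝ))
      | insert a s ha ih =>
        intro hs
        have h1 := (hterm a (hs (mem_insert_self a s))).add
          (ih ((subset_insert a s).trans hs))
        refine h1.congr ?_
        intro v _
        simp [Finset.sum_insert ha]
    exact this _ subset_rfl
  refine hsum.congr ?_
  intro v hv
  have hv0 : (0:ℝ) ≤ v := hv
  simp only [g]
  rw [add_pow]
  apply Finset.sum_congr rfl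
  intro j _
  have : (v ^ (1 / (e:ℝ))) ^ j = v ^ ((j:ℝ) / e) := by
    rw [← Real.rpow_natCast, ← Real.rpow_mul hv0]
    congr 1
    ring
  rw [this]
  ring

end Pool.Agent.K4H23.NZ
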